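import Mathlib

set_option autoImplicit false

/-!
# Denser P-position sets for extensions of the AP-avoiding heap game

There is an extension `R` of the base ruleset `{{d, 2d} : d ≥ 1}` whose set `A_R` of P-positions
has `A_R(x) ≥ (x / 24) exp(-4 √(log x))` for all large `x`.
-/

open Filter Finset

namespace Pool.Agent.Results.MP_c84e26_co.DenseExtension

/-- A ruleset: a set of finite nonempty sets of positive integers. -/
def IsRuleset (R : Set (Finset ℕ)) : Prop := ∀ M ∈ R, M.Nonempty ∧ ∀ m ∈ M, 0 < m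

/-- The base ruleset `M_0 = {{d, 2d} : d ≥ 1}`. -/
def baseRules : Set (Finset ℕ) := {M | ∃ d : ℕ, 1 ≤ d ∧ M = {d, 2 * d}}

/-- The recursion that defines `A_R`: `n ∈ A` if and only if there is no `M ∈ R` with `max M ≤ n`
and `{n - m : m ∈ M} ⊆ A`. -/
def IsPSet (R : Set (Finset ℕ)) (A : Set ℕ) : Prop :=
  ∀ n, n ∈ A ↔ ¬ ∃ M ∈ R, (∀ m ∈ M, m ≤ n) ∧ ∀ m ∈ M, n - m ∈ A

/-- `A(x)`: the number of elements of `A` less than `x`. -/
noncomputable def count (A : Set ℕ) (x : ℝ) : ℕ := {i : ℕ | i ∈ A ∧ (i : ℝ) < x}.ncard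

theorem psetUnique {R : Set (Finset ℕ)} (hR : IsRuleset R) {A B : Set ℕ} (hA : IsPSet R A)
    (hB : IsPSet R B) : A = B := by
  ext n
  induction n using Nat.strong_induction_on with
  | _ n ih =>
    rw [hA n, hB n]
    apply not_congr
    constructor
    · rintro ⟨M, hM, h1, h2⟩
      refine ⟨M, hM, h1, fun m hm => ?_⟩
      have hpos := (hR M hM).2 m hm
      have := h1 m hm
      exact (ih (n - m) (by omega)).1 (h2 m hm)
    · rintro ⟨M, hM, h1, h2⟩
      refine ⟨M, hM, h1, fun m hm => ?_⟩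
      have hpos := (hR M hM).2 m hm
      have := h1 m hm
      exact (ih (n - m) (by omega)).2 (h2 m hm)

/-- a 3-AP-free subset of `range (4 ^ j)` of maximal size -/
noncomputable def T (j : ℕ) : Finset ℕ := Classical.choose (rothNumberNat_spec (4 ^ j))

lemma T_sub (j : ℕ) : T j ⊆ range (4 ^ j) := (Classical.choose_spec (rothNumberNat_spec (4 ^ j))).1

lemma T_card (j : ℕ) : (T j).card = rothNumberNat (4 ^ j) :=
  (Classical.choose_spec (rothNumberNat_spec (4 ^ j))).2.1

lemma T_free (j : ℕ) : ThreeAPFree (T j : Set ℕ) :=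
  (Classical.choose_spec (rothNumberNat_spec (4 ^ j))).2.2

/-- the block at scale `j` -/
def D (j : ℕ) : Set ℕ := {n | ∃ t ∈ T j, n = 4 ^ (j + 1) + 2 * t}

/-- the set of P-positions -/
def AA : Set ℕ := {n | n = 0 ∨ n = 1 ∨ ∃ j, n ∈ D j}

lemma D_bounds {j n : ℕ} (h : n ∈ D j) : 4 ^ (j + 1) ≤ n ∧ 2 * n < 3 * 4 ^ (j + 1) ∧ n % 2 = 0 := by
  obtain ⟨t, ht, rfl⟩ := h
  have h1 := mem_range.1 (T_sub j ht)
  have h2 : 4 ^ (j + 1) = 4 * 4 ^ j := by ring
  omega

lemma scale {i j m n : ℕ} (hm : m ∈ D i) (hn : n ∈ D j) (hij : i < j) :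
    8 * m < 3 * n := by
  have h1 := D_bounds hm
  have h2 := D_bounds hn
  have h3 : 4 ^ (i + 1 + 1) ≤ 4 ^ (j + 1) := Nat.pow_le_pow_right (by norm_num) (by omega)
  have h4 : 4 ^ (i + 1 + 1) = 4 * 4 ^ (i + 1) := by ring
  omega

lemma AA_cases {n : ℕ} (h : n ∈ AA) (h2 : 2 ≤ n) : ∃ j, n ∈ D j := by
  rcases h with h | h | h
  · omega
  · omega
  · exact h

/-- no three-term progression -/
lemma AA_free {x y z : ℕ} (hx : x ∈ AA) (hy : y ∈ AA) (hz : z ∈ AA) (hxy : x < y)
    (h : x + z = 2 * y) : False := by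
  rcases Nat.lt_or_ge y 2 with hy2 | hy2
  · have hz2 : z = 2 := by omega
    obtain ⟨j, hj⟩ := AA_cases hz (by omega)
    have h1 := D_bounds hj
    have h3 : 4 ^ 1 ≤ 4 ^ (j + 1) := Nat.pow_le_pow_right (by norm_num) (by omega)
    omega
  · obtain ⟨j, hj⟩ := AA_cases hy hy2
    obtain ⟨l, hl⟩ := AA_cases hz (by omega)
    have hjb := D_bounds hj
    have hlb := D_bounds hl
    rcases Nat.lt_trichotomy j l with hjl | hjl | hjl
    · have := scale hj hl hjl
      omega
    · subst hjl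
      rcases Nat.lt_or_ge x 2 with hx2 | hx2
      · omega
      · obtain ⟨i, hi⟩ := AA_cases hx hx2
        rcases Nat.lt_trichotomy i j with hij | hij | hij
        · have := scale hi hj hij
          have := scale hi hl hij
          have := D_bounds hi
          have h3 : 4 ^ (i + 1 + 1) ≤ 4 ^ (j + 1) := Nat.pow_le_pow_right (by norm_num) (by omega)
          have h4 : 4 ^ (i + 1 + 1) = 4 * 4 ^ (i + 1) := by ring
          omega
        · subst hij
          obtain ⟨a, ha, rfl⟩ := hi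
          obtain ⟨b, hb, rfl⟩ := hj
          obtain ⟨c, hc, rfl⟩ := hl
          have h5 : a + c = b + b := by omega
          have h6 := threeAPFree_iff_eq_right.1 (T_free i) ha hb hc h5
          omega
        · have := scale hj hi hij
          omega
    · have := scale hl hj hjl
      omega

/-- the additional rules: for every `k ≥ 2` outside `AA`, the set `{k - a : a ∈ AA, a < k}` -/
def extraRules : Set (Finset ℕ) :=
  {M | ∃ k : ℕ, 2 ≤ k ∧ k ∉ AA ∧ ∀ m, m ∈ M ↔ ∃ a ∈ AA, a < k ∧ m = k - a}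

lemma zero_mem : 0 ∈ AA := Or.inl rfl

lemma one_mem : 1 ∈ AA := Or.inr (Or.inl rfl)

lemma extra_isRuleset : IsRuleset extraRules := by
  rintro M ⟨k, hk, -, hM⟩
  refine ⟨⟨k, (hM k).2 ⟨0, zero_mem, by omega, by omega⟩⟩, fun m hm => ?_⟩
  obtain ⟨a, -, ha, rfl⟩ := (hM m).1 hm
  omega

lemma union_isRuleset : IsRuleset (baseRules ∪ extraRules) := by
  rintro M (⟨d, hd, rfl⟩ | hM)
  · refine ⟨⟨d, by simp⟩, fun m hm => ?_⟩
    simp only [mem_insert, mem_singleton] at hm
    omega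
  · exact extra_isRuleset M hM

lemma exists_extra {k : ℕ} (hk : 2 ≤ k) (hkA : k ∉ AA) :
    ∃ M ∈ extraRules, ∀ m, m ∈ M ↔ ∃ a ∈ AA, a < k ∧ m = k - a := by
  classical
  refine ⟨((range k).filter (fun a => a ∈ AA)).image (fun a => k - a), ⟨k, hk, hkA, ?_⟩, ?_⟩ <;>
  · intro m
    simp only [mem_image, mem_filter, mem_range]
    constructor
    · rintro ⟨a, ⟨h1, h2⟩, rfl⟩
      exact ⟨a, h2, h1, rfl⟩
    · rintro ⟨a, h2, h1, rfl⟩
      exact ⟨a, ⟨h1, h2⟩, rfl⟩

lemma consecutive {t : ℕ} (h1 : t ∈ AA) (h2 : t + 1 ∈ AA) : t = 0 := by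
  by_contra ht
  obtain ⟨j, hj⟩ := AA_cases h2 (by omega)
  have hb := D_bounds hj
  rcases h1 with h1 | h1 | ⟨i, hi⟩
  · omega
  · subst h1
    have h3 : 4 ^ 1 ≤ 4 ^ (j + 1) := Nat.pow_le_pow_right (by norm_num) (by omega)
    omega
  · have := D_bounds hi
    omega

theorem AA_isPSet : IsPSet (baseRules ∪ extraRules) AA := by
  intro n
  constructor
  · rintro hn ⟨M, hM, h1, h2⟩
    rcases hM with ⟨d, hd, rfl⟩ | ⟨k, hk, hkA, hM⟩
    · have ha := h2 (2 * d) (by simp)
      have hb := h2 d (by simp)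
      have hc := h1 (2 * d) (by simp)
      exact AA_free ha hb hn (by omega) (by omega)
    · have ha := h2 k ((hM k).2 ⟨0, zero_mem, by omega, by omega⟩)
      have hb := h2 (k - 1) ((hM (k - 1)).2 ⟨1, one_mem, by omega, by omega⟩)
      have hc := h1 k ((hM k).2 ⟨0, zero_mem, by omega, by omega⟩)
      have hd : n - (k - 1) = n - k + 1 := by omega
      rw [hd] at hb
      have := consecutive ha hb
      have hnk : n = k := by omega
      exact hkA (hnk ▸ hn)
  · intro h
    by_contra hn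
    apply h
    have h2 : 2 ≤ n := by
      by_contra hlt
      have : n = 0 ∨ n = 1 := by omega
      rcases this with rfl | rfl
      · exact hn zero_mem
      · exact hn one_mem
    obtain ⟨M, hM, hMm⟩ := exists_extra h2 hn
    refine ⟨M, Or.inr hM, fun m hm => ?_, fun m hm => ?_⟩
    · obtain ⟨a, -, ha, rfl⟩ := (hMm m).1 hm
      omega
    · obtain ⟨a, haA, ha, rfl⟩ := (hMm m).1 hm
      have : n - (n - a) = a := by omega
      rwa [this]

lemma count_ge (j : ℕ) (x : ℝ) (hx : (3 / 2 : ℝ) * 4 ^ (j + 1) ≤ x) :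
    rothNumberNat (4 ^ j) ≤ count AA x := by
  classical
  have hfin : {i : ℕ | i ∈ AA ∧ (i : ℝ) < x}.Finite := by
    apply (Set.finite_Iio ⌈x⌉₊).subset
    rintro i ⟨-, hi⟩
    exact Nat.lt_ceil.2 hi
  have hsub : (((T j).image (fun t => 4 ^ (j + 1) + 2 * t) : Finset ℕ) : Set ℕ) ⊆
      {i : ℕ | i ∈ AA ∧ (i : ℝ) < x} := by
    intro n hn
    rw [mem_coe, mem_image] at hn
    obtain ⟨t, ht, rfl⟩ := hn
    have hD : 4 ^ (j + 1) + 2 * t ∈ D j := ⟨t, ht, rfl⟩
    refine ⟨Or.inr (Or.inr ⟨j, hD⟩), ?_⟩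
    have h1 := (D_bounds hD).2.1
    have h2 : ((2 * (4 ^ (j + 1) + 2 * t) : ℕ) : ℝ) < ((3 * 4 ^ (j + 1) : ℕ) : ℝ) := by
      exact_mod_cast h1
    push_cast at h2 ⊢
    linarith
  have h := Set.ncard_le_ncard hsub hfin
  rw [Set.ncard_coe_finset, card_image_of_injective _ (fun a b h => by simpa using h), T_card] at h
  exact h

lemma count_lower (x : ℝ) (hx : 6 ≤ x) : x / 24 * Real.exp (-4 * √(Real.log x)) ≤ count AA x := by
  obtain ⟨n, hn1, hn2⟩ := exists_nat_pow_near (x := 2 * x / 3 / 4) (y := (4 : ℝ)) (by linarith)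
    (by norm_num)
  have h0 : (0 : ℝ) < 4 ^ n := by positivity
  have h1 : (3 / 2 : ℝ) * 4 ^ (n + 1) ≤ x := by
    rw [pow_succ]
    linarith
  have h2 : x / 24 ≤ 4 ^ n := by
    rw [pow_succ] at hn2
    linarith
  have h3 := count_ge n x h1
  have h4 := Behrend.roth_lower_bound (N := 4 ^ n)
  have h5 : Real.exp (-4 * √(Real.log x)) ≤ Real.exp (-4 * √(Real.log ((4 ^ n : ℕ) : ℝ))) := by
    apply Real.exp_le_exp.2
    have : √(Real.log ((4 ^ n : ℕ) : ℝ)) ≤ √(Real.log x) := by
      apply Real.sqrt_le_sqrt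
      apply Real.log_le_log
      · push_cast; positivity
      · push_cast
        rw [pow_succ] at h1
        nlinarith
    linarith
  calc x / 24 * Real.exp (-4 * √(Real.log x))
      ≤ ((4 ^ n : ℕ) : ℝ) * Real.exp (-4 * √(Real.log ((4 ^ n : ℕ) : ℝ))) := by
        apply mul_le_mul _ h5 (Real.exp_pos _).le (by positivity)
        push_cast
        exact h2
    _ ≤ rothNumberNat (4 ^ n) := h4
    _ ≤ count AA x := by exact_mod_cast h3

lemma growth (c : ℝ) (hc : c < 1) : Tendsto (fun x : ℝ => (count AA x : ℝ) / x ^ c) atTop atTop := by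
  have key : Tendsto (fun x : ℝ => (1 - c) * Real.log x - 4 * √(Real.log x)) atTop atTop := by
    have h1 : Tendsto (fun u : ℝ => (1 - c) * u ^ 2 - 4 * u) atTop atTop := by
      have h2 : (fun u : ℝ => (1 - c) * u ^ 2 - 4 * u) = fun u : ℝ => u * ((1 - c) * u - 4) := by
        ext u; ring
      rw [h2]
      apply tendsto_id.atTop_mul_atTop₀
      exact tendsto_atTop_add_const_right _ _ ((tendsto_const_mul_atTop_of_pos (by linarith)).2
        tendsto_id)
    have h3 : Tendsto (fun x : ℝ => √(Real.log x)) atTop atTop :=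
      Real.tendsto_sqrt_atTop.comp Real.tendsto_log_atTop
    have h4 := h1.comp h3
    refine h4.congr' ?_
    filter_upwards [eventually_ge_atTop (1 : ℝ)] with x hx
    simp only [Function.comp]
    rw [Real.sq_sqrt (Real.log_nonneg hx)]
  have h5 : Tendsto (fun x : ℝ => 1 / 24 * Real.exp ((1 - c) * Real.log x - 4 * √(Real.log x)))
      atTop atTop :=
    (tendsto_const_mul_atTop_of_pos (by norm_num)).2 (Real.tendsto_exp_atTop.comp key)
  refine tendsto_atTop_mono' _ ?_ h5
  filter_upwards [eventually_ge_atTop (6 : ℝ)] with x hx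
  have hx0 : 0 < x := by linarith
  have hxc : 0 < x ^ c := Real.rpow_pos_of_pos hx0 c
  rw [le_div_iff₀ hxc]
  refine le_trans (le_of_eq ?_) (count_lower x hx)
  have h6 : Real.exp ((1 - c) * Real.log x - 4 * √(Real.log x)) =
      x * Real.exp (-4 * √(Real.log x)) / x ^ c := by
    rw [Real.rpow_def_of_pos hx0]
    rw [eq_div_iff (Real.exp_pos _).ne']
    nth_rewrite 4 [← Real.exp_log hx0]
    rw [← Real.exp_add, ← Real.exp_add]
    congr 1
    ring
  rw [h6]
  field_simp

/-- There is an extension `R = M_0 ∪ M'` of the base ruleset such that its set `A` of P-positions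
(the unique solution of the recursion) satisfies `limsup A(x) / x ^ (log 2 / log 3) = ∞`; in fact
`A(x) ≥ (x / 24) exp(-4 √(log x))` for all `x ≥ 6`, and `A(x) / x ^ c → ∞` for every `c < 1`. -/
theorem result : ∃ M' : Set (Finset ℕ), IsRuleset M' ∧ ∃ A : Set ℕ,
    IsPSet (baseRules ∪ M') A ∧ (∀ B : Set ℕ, IsPSet (baseRules ∪ M') B → B = A) ∧
    limsup (fun x : ℝ => (((count A x : ℝ) / x ^ (Real.log 2 / Real.log 3) : ℝ) : EReal)) atTop = ⊤ ∧
    (∀ x : ℝ, 6 ≤ x → x / 24 * Real.exp (-4 * √(Real.log x)) ≤ count A x) ∧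
    ∀ c : ℝ, c < 1 → Tendsto (fun x : ℝ => (count A x : ℝ) / x ^ c) atTop atTop := by
  refine ⟨extraRules, extra_isRuleset, AA, AA_isPSet, fun B hB =>
    psetUnique union_isRuleset hB AA_isPSet, ?_, count_lower, growth⟩
  have h1 : Real.log 2 / Real.log 3 < 1 := by
    rw [div_lt_one (Real.log_pos (by norm_num))]
    exact Real.log_lt_log (by norm_num) (by norm_num)
  have h2 := growth _ h1
  have h3 : Tendsto (fun x : ℝ =>
      (((count AA x : ℝ) / x ^ (Real.log 2 / Real.log 3) : ℝ) : EReal)) atTop (nhds ⊤) :=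
    EReal.tendsto_coe_nhds_top_iff.2 h2
  exact h3.limsup_eq

end Pool.Agent.Results.MP_c84e26_co.DenseExtension
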